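import Pool.Agent.N855.P15.Par
import Pool.Agent.N877.TF.Amb
import Pool.Agent.N969.P15.Defs

/-!
# The parity of the number of the ambiguous factorizations in a genus (any genus)
-/

set_option autoImplicit false

namespace Pool.Agent.N919.P17

open Finset Pool.Agent.N855.P15

/-- the count of the divisors for a general symbol -/
theorem card_cnd {n : ℕ} (hn : Squarefree n) (h3 : n % 4 = 3) {e : ℤ}
    (hg : ∀ p ∈ n.primeFactors, e.gcd (p : ℤ) = 1) (hj : jacobiSym e n = 1) :
    Nat.card {d : ℕ // d ∣ n ∧ Cnd n (fun p => jacobiSym e p) d} % 4 = 2 ↔ Qj n := by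
  have : Nonempty (PP n) := by
    obtain ⟨p, hp⟩ := Nat.nonempty_primeFactors.2 (show 1 < n by omega)
    exact ⟨⟨p, hp⟩⟩
  let κ : PP n → ZMod 2 := fun p => sy e p
  have hκ : ∀ p : PP n, (fun p : ℕ => jacobiSym e p) p = sg (κ p) := by
    intro p
    exact (sg_sy (hg p p.2)).symm
  have hκ0 : ∑ p, κ p = 0 := by
    apply sg_inj
    rw [sg_sum]
    have h1 : ∏ p : PP n, sg (κ p) = ∏ p : PP n, jacobiSym e (p : ℕ) :=
      prod_congr rfl fun p _ => (hκ p).symm
    rw [h1, Finset.prod_coe_sort n.primeFactors (fun p => jacobiSym e p),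
      ← jac_prod_right e n.primeFactors fun p hp => Nat.prime_of_mem_primeFactors hp,
      Nat.prod_primeFactors_of_squarefree hn, hj]
    rfl
  rw [← dv_bij hn κ _ hκ, lin (LL n) (LL_one n) (LL_sum hn h3) κ hκ0, Qj_iff hn]

/-- the smaller divisors with the condition -/
noncomputable def DD (n : ℕ) (f : ℕ → ℤ) : Finset ℕ := by
  classical
  exact n.divisors.filter fun d => Cnd n f d ∧ d * d < n

open Classical in
theorem card_two {n : ℕ} (hn : Squarefree n) (h3 : n % 4 = 3) (f : ℕ → ℤ) :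
    Nat.card {d : ℕ // d ∣ n ∧ Cnd n f d} = 2 * (DD n f).card := by
  have h1 : Nat.card {d : ℕ // d ∣ n ∧ Cnd n f d} =
      (n.divisors.filter fun d => Cnd n f d).card := by
    refine Nat.subtype_card _ fun d => ?_
    rw [mem_filter, Nat.mem_divisors]
    exact ⟨fun h => ⟨h.1.1, h.2⟩, fun h => ⟨⟨h.1, hn.ne_zero⟩, h.2⟩⟩
  have h2 : (n.divisors.filter fun d => Cnd n f d).card =
      (DD n f).card + (n.divisors.filter fun d => Cnd n f d ∧ ¬ d * d < n).card := by
    unfold DD
    rw [← Finset.filter_filter, ← Finset.filter_filter]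
    exact (Finset.card_filter_add_card_filter_not _).symm
  have h4 : (DD n f).card = (n.divisors.filter fun d => Cnd n f d ∧ ¬ d * d < n).card := by
    have hsq : ∀ d, d * d ≠ n := by
      intro d hd
      have : d % 4 = 0 ∨ d % 4 = 1 ∨ d % 4 = 2 ∨ d % 4 = 3 := by omega
      rcases this with h | h | h | h <;> rw [← hd, Nat.mul_mod, h] at h3 <;> omega
    refine Finset.card_nbij' (fun d => n / d) (fun d => n / d) ?_ ?_ ?_ ?_
    · intro d hd
      unfold DD at hd
      obtain ⟨h1, h2, h4⟩ := mem_filter.1 hd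
      obtain ⟨E, hE⟩ := Nat.dvd_of_mem_divisors h1
      have hd0 : 0 < d := Nat.pos_of_ne_zero fun h0 => hn.ne_zero (by rw [hE, h0, zero_mul])
      have hE' : n / d = E := Nat.div_eq_of_eq_mul_right hd0 hE
      simp only
      rw [hE']
      refine mem_filter.2 ⟨Nat.mem_divisors.2 ⟨⟨d, by rw [hE, mul_comm]⟩, hn.ne_zero⟩,
        cnd_symm hn hE.symm _ h2, ?_⟩
      rw [not_lt]
      have hdE : d < E := by
        rw [hE] at h4
        exact lt_of_mul_lt_mul_left h4 hd0.le
      rw [hE]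
      exact Nat.mul_le_mul_right E hdE.le
    · intro d hd
      obtain ⟨h1, h2, h4⟩ := mem_filter.1 hd
      obtain ⟨E, hE⟩ := Nat.dvd_of_mem_divisors h1
      have hd0 : 0 < d := Nat.pos_of_ne_zero fun h0 => hn.ne_zero (by rw [hE, h0, zero_mul])
      have hE' : n / d = E := Nat.div_eq_of_eq_mul_right hd0 hE
      simp only
      rw [hE']
      unfold DD
      refine mem_filter.2 ⟨Nat.mem_divisors.2 ⟨⟨d, by rw [hE, mul_comm]⟩, hn.ne_zero⟩,
        cnd_symm hn hE.symm _ h2, ?_⟩
      have h5 : n < d * d := lt_of_le_of_ne (not_lt.1 h4) (Ne.symm (hsq d))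
      rw [hE] at h5 ⊢
      have hdE : E < d := lt_of_mul_lt_mul_left h5 hd0.le
      have hE0 : 0 < E := Nat.pos_of_ne_zero fun h0 => hn.ne_zero (by rw [hE, h0, mul_zero])
      exact Nat.mul_lt_mul_of_pos_right hdE hE0
    · intro d hd
      unfold DD at hd
      obtain ⟨h1, h2, h4⟩ := mem_filter.1 hd
      exact Nat.div_div_self (Nat.dvd_of_mem_divisors h1) hn.ne_zero
    · intro d hd
      obtain ⟨h1, h2, h4⟩ := mem_filter.1 hd
      exact Nat.div_div_self (Nat.dvd_of_mem_divisors h1) hn.ne_zero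
  rw [h1, h2, ← h4]
  ring

open Pool.Agent.N877.TF (AF)

/-- the ambiguous factorizations as divisors with the condition -/
theorem AF_DD {n : ℕ} (hn : Squarefree n) {d : ℤ}
    (hg : ∀ p ∈ n.primeFactors, (-(2 * d)).gcd (p : ℤ) = 1) :
    AF n d = DD n (fun p => jacobiSym (-(2 * d)) p) := by
  classical
  unfold AF DD
  apply filter_congr
  intro r hr
  rw [and_comm (b := r * r < n)]
  refine and_congr_right fun _ => ?_
  obtain ⟨E, hE⟩ := Nat.dvd_of_mem_divisors hr
  have hr0 : 0 < r := Nat.pos_of_ne_zero fun h0 => hn.ne_zero (by rw [hE, h0, zero_mul])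
  have hE0 : E ≠ 0 := fun h0 => hn.ne_zero (by rw [hE, h0, mul_zero])
  have hE' : n / r = E := Nat.div_eq_of_eq_mul_right hr0 hE
  rw [hE']
  have hdE : ∀ p ∈ n.primeFactors, (p ∣ r ∧ ¬ p ∣ E) ∨ (¬ p ∣ r ∧ p ∣ E) := by
    intro p hp
    have hpp := Nat.prime_of_mem_primeFactors hp
    have hpn := Nat.dvd_of_mem_primeFactors hp
    by_cases h1 : p ∣ r
    · left
      refine ⟨h1, fun h2 => ?_⟩
      have h7 : p * p ∣ n := by
        rw [hE]
        exact mul_dvd_mul h1 h2
      exact hpp.one_lt.ne' (Nat.isUnit_iff.1 (hn p h7))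
    · right
      refine ⟨h1, ?_⟩
      rw [hE] at hpn
      exact ((Nat.Prime.dvd_mul hpp).1 hpn).resolve_left h1
  have hs : ∀ (x : ℕ) (p : ℕ), p.Prime → p ∣ n → ¬ p ∣ x →
      (jacobiSym (-(2 * d * (x : ℤ))) p = 1 ↔
        jacobiSym (x : ℤ) p = jacobiSym (-(2 * d)) p) := by
    intro x p hp hpn hpx
    have e : -(2 * d * (x : ℤ)) = -(2 * d) * x := by ring
    rw [e, jacobiSym.mul_left]
    have g1 := hg p (Nat.mem_primeFactors.2 ⟨hp, hpn, hn.ne_zero⟩)
    have g2 : (x : ℤ).gcd p = 1 := by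
      rw [Int.gcd_natCast_natCast]
      exact ((Nat.Prime.coprime_iff_not_dvd hp).2 hpx).symm
    rcases jacobiSym.eq_one_or_neg_one g1 with k1 | k1 <;>
      rcases jacobiSym.eq_one_or_neg_one g2 with k2 | k2 <;> rw [k1, k2] <;> norm_num
  constructor
  · rintro ⟨a1, a2⟩ p hp
    have hpp := Nat.prime_of_mem_primeFactors hp
    have hpn := Nat.dvd_of_mem_primeFactors hp
    rw [hE']
    rcases hdE p hp with ⟨b1, b2⟩ | ⟨b1, b2⟩
    · rw [if_pos b1]
      exact (hs E p hpp hpn b2).1 (a1 p (Nat.mem_primeFactors.2 ⟨hpp, b1, hr0.ne'⟩))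
    · rw [if_neg b1]
      exact (hs r p hpp hpn b1).1 (a2 p (Nat.mem_primeFactors.2 ⟨hpp, b2, hE0⟩))
  · intro hc
    constructor
    · intro p hp
      have hpp := Nat.prime_of_mem_primeFactors hp
      have b1 := Nat.dvd_of_mem_primeFactors hp
      have hpn : p ∣ n := b1.trans ⟨E, hE⟩
      have hp' : p ∈ n.primeFactors := Nat.mem_primeFactors.2 ⟨hpp, hpn, hn.ne_zero⟩
      have b2 : ¬ p ∣ E := by
        rcases hdE p hp' with h | h
        · exact h.2
        · exact absurd b1 h.1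
      have := hc p hp'
      rw [if_pos b1, hE'] at this
      exact (hs E p hpp hpn b2).2 this
    · intro p hp
      have hpp := Nat.prime_of_mem_primeFactors hp
      have b2 := Nat.dvd_of_mem_primeFactors hp
      have hpn : p ∣ n := b2.trans ⟨r, by rw [hE, mul_comm]⟩
      have hp' : p ∈ n.primeFactors := Nat.mem_primeFactors.2 ⟨hpp, hpn, hn.ne_zero⟩
      have b1 : ¬ p ∣ r := by
        rcases hdE p hp' with h | h
        · exact absurd b2 h.2
        · exact h.1
      have := hc p hp'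
      rw [if_neg b1] at this
      exact (hs r p hpp hpn b1).2 this

theorem Qc_iff {n : ℕ} (hn : n ≠ 0) : Pool.Agent.N969.P15.Qc n ↔ Qj n := by
  unfold Pool.Agent.N969.P15.Qc Qj
  constructor
  · intro h b c hbc h1 h2
    exact h b c hbc (fun p hp => h1 p (Nat.prime_of_mem_primeFactors hp)
      (Nat.dvd_of_mem_primeFactors hp)) (fun p hp => h2 p (Nat.prime_of_mem_primeFactors hp)
      (Nat.dvd_of_mem_primeFactors hp))
  · intro h b c hbc h1 h2
    have hb : b ≠ 0 := fun h0 => hn (by rw [← hbc, h0, zero_mul])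
    have hc : c ≠ 0 := fun h0 => hn (by rw [← hbc, h0, mul_zero])
    exact h b c hbc (fun p hp hpc => h1 p (Nat.mem_primeFactors.2 ⟨hp, hpc, hc⟩))
      (fun p hp hpb => h2 p (Nat.mem_primeFactors.2 ⟨hp, hpb, hb⟩))

/-- the parity of the number of the ambiguous factorizations -/
theorem AF_odd {n : ℕ} (hn : Squarefree n) (h4 : n % 4 = 3) {d : ℤ}
    (hg : ∀ p ∈ n.primeFactors, (-(2 * d)).gcd (p : ℤ) = 1)
    (hj : jacobiSym (-(2 * d)) n = 1) :
    Odd (AF n d).card ↔ Pool.Agent.N969.P15.Qc n := by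
  rw [Qc_iff hn.ne_zero, ← card_cnd hn h4 hg hj, card_two hn h4, AF_DD hn hg, Nat.odd_iff]
  omega

end Pool.Agent.N919.P17
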