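import Pool.Agent.N919.P17.Tor
import Pool.Agent.N919.P17.Par

/-!
# (R) for level 17: the weighted number of vectors and its parity
-/

set_option autoImplicit false

namespace Pool.Agent.N919.P17

open Finset Pool.Agent.N877.TF Pool.Agent.N972.P17

theorem int_bd {x m : ℤ} (h : x ^ 2 ≤ m) : -m ≤ x ∧ x ≤ m := by
  constructor <;> nlinarith [sq_nonneg x, sq_nonneg (x + 1), sq_nonneg (x - 1)]

theorem mem_vec1 (n : ℤ) (v : V) : v ∈ vec1 n ↔ S1.nm v = n := by
  rw [vec1, mem_filter, Fintype.mem_piFinset, ← nm1]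
  refine ⟨fun h => h.2, fun h => ⟨fun i => ?_, h⟩⟩
  rw [nm1, ip1] at h
  have a0 := sq_nonneg (v 0)
  have a1 := sq_nonneg (v 1)
  have a2 := sq_nonneg (v 2)
  have a3 := sq_nonneg (v 0 - v 1)
  have a4 := sq_nonneg (v 0 - v 2)
  have a5 := sq_nonneg (v 1 - v 2)
  have e : v 0 ^ 2 + v 1 ^ 2 + v 2 ^ 2 + (3 * (v 0 - v 1) ^ 2 + 2 * (v 0 - v 2) ^ 2 +
      4 * (v 1 - v 2) ^ 2 + v 0 ^ 2 + 3 * v 1 ^ 2 + 13 * v 2 ^ 2) = n := by
    rw [← h]; ring
  rw [mem_Icc]
  fin_cases i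
  · exact int_bd (by show v 0 ^ 2 ≤ n; linarith)
  · exact int_bd (by show v 1 ^ 2 ≤ n; linarith)
  · exact int_bd (by show v 2 ^ 2 ≤ n; linarith)

theorem mem_vec2 (n : ℤ) (v : V) : v ∈ vec2 n ↔ S2.nm v = n := by
  rw [vec2, mem_filter, Fintype.mem_piFinset, ← nm2]
  refine ⟨fun h => h.2, fun h => ⟨fun i => ?_, h⟩⟩
  rw [nm2, ip2] at h
  have a0 := sq_nonneg (v 0)
  have a1 := sq_nonneg (v 1)
  have a2 := sq_nonneg (v 2)
  have a3 := sq_nonneg (v 0 - v 1)
  have a4 := sq_nonneg (v 0 - v 2)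
  have a5 := sq_nonneg (v 1 - v 2)
  have e : v 0 ^ 2 + v 1 ^ 2 + v 2 ^ 2 + ((v 0 - v 1) ^ 2 + (v 0 - v 2) ^ 2 +
      11 * (v 1 - v 2) ^ 2 + 10 * v 1 ^ 2 + 10 * v 2 ^ 2) = n := by
    rw [← h]; ring
  rw [mem_Icc]
  fin_cases i
  · exact int_bd (by show v 0 ^ 2 ≤ n; linarith)
  · exact int_bd (by show v 1 ^ 2 ≤ n; linarith)
  · exact int_bd (by show v 2 ^ 2 ≤ n; linarith)

theorem cm_facts {n : ℕ} (h : Cm n) : Odd n ∧ ¬ 17 ∣ n ∧ (∀ p ∈ n.primeFactors,
    (-(2 * 34) : ℤ).gcd (p : ℤ) = 1) ∧ jacobiSym (-(2 * 34)) n = 1 := by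
  obtain ⟨hsq, h4, hj⟩ := h
  have hodd : Odd n := Nat.odd_iff.2 (by omega)
  have h17 : ¬ 17 ∣ n := by
    intro h
    have h1 : jacobiSym (n : ℤ) 17 = 0 := by
      rw [jacobiSym.eq_zero_iff_not_coprime, Int.gcd_natCast_natCast]
      intro h2
      have := Nat.dvd_gcd h (dvd_refl 17)
      rw [h2] at this
      omega
    rw [h1] at hj
    norm_num at hj
  refine ⟨hodd, h17, ?_, ?_⟩
  · intro p hp
    have hpp := Nat.prime_of_mem_primeFactors hp
    have hpn := Nat.dvd_of_mem_primeFactors hp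
    have h1 : Nat.Coprime 68 p := by
      rw [show 68 = 2 ^ 2 * 17 by norm_num]
      refine Nat.Coprime.mul_left (Nat.Coprime.pow_left 2 ?_) ?_
      · refine (Nat.coprime_primes Nat.prime_two hpp).2 ?_
        rintro rfl
        rw [Nat.odd_iff] at hodd
        omega
      · refine (Nat.coprime_primes (by norm_num) hpp).2 ?_
        rintro rfl
        exact h17 hpn
    exact h1
  · have e : (-(2 * 34) : ℤ) = -1 * (((17 : ℕ) : ℤ) * 2 ^ 2) := by norm_num
    have h2 : (2 : ℤ).gcd n = 1 := by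
      change Nat.gcd 2 n = 1
      exact (Nat.Prime.coprime_iff_not_dvd Nat.prime_two).2 (by omega)
    rw [e, jacobiSym.mul_left, jacobiSym.mul_left, jacobiSym.sq_one' h2,
      jacobiSym.at_neg_one hodd, ZMod.χ₄_nat_three_mod_four h4,
      jacobiSym.quadratic_reciprocity_one_mod_four (by norm_num) hodd, hj]
    norm_num

/-- **(R)**: the parity of the class number -/
theorem t_R (h : S_TORS) : S_R := by
  intro n hC h3
  obtain ⟨hodd, h17, hg, hj⟩ := cm_facts hC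
  obtain ⟨hsq, h4, -⟩ := hC
  have hcop : IsCoprime S1.d (n : ℤ) := by
    rw [d1]
    have : Nat.Coprime 34 n := by
      rw [show 34 = 2 * 17 by norm_num]
      refine Nat.Coprime.mul_left ?_ ?_
      · exact (Nat.Prime.coprime_iff_not_dvd Nat.prime_two).2 (by omega)
      · exact (Nat.Prime.coprime_iff_not_dvd (by norm_num)).2 h17
    exact_mod_cast Nat.isCoprime_iff_coprime.2 this
  have hc := card_vec2 (S := S1) (S' := S2) (by rw [d1, d2]) (fin_of_bd bd1) (fin_of_bd bd2)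
    (pos_of_bd bd1) (pos_of_bd bd2) (tors2 h) (by rw [d1]; norm_num) hsq hodd (by omega) hcop
    (mem_vec1 n) (mem_vec2 n) (fun _ _ u _ => even1 u) (fun _ _ u _ => even2 u)
  rw [d1] at hc
  refine ⟨((Rd n).filter fun g => Gc n 34 g).card, ?_, ?_⟩
  · have hc' : ((2 * (3 * (vec1 n).card + 1 * (vec2 n).card) : ℕ) : ℤ) =
        ((6 * 2 ^ n.primeFactors.card * ((Rd n).filter fun g => Gc n 34 g).card : ℕ) : ℤ) := by
      rw [hc]
    push_cast at hc'
    rw [rr]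
    linarith
  · rw [← AF_odd hsq h4 hg hj, ← card_amb hsq h4 (by omega), ← card_parity hodd]
    norm_cast

end Pool.Agent.N919.P17
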