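import Pool.Agent.N919.RE.Fin
import Pool.Agent.N919.P17.R
import Pool.Agent.N972.P17.Defs2

/-!
# (RE) for level 17: the weighted number of vectors and its parity, even discriminants
-/

set_option autoImplicit false

namespace Pool.Agent.N919.P17

open Finset Matrix Pool.Agent.N877.TF Pool.Agent.N972.P17 Pool.Agent.N919.RE

theorem torsE (h : S_TORS) : TorsE S1 S2 3 1 6 17 := by
  intro a b c p q r' ha hD hdet
  have hdM : (sm (2 * a) b (2 * c) p q (2 * r')).det = 34 := by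
    rw [sm, det_fin_three]
    simp
    linear_combination 2 * hdet
  have hP : PosF (sm (2 * a) b (2 * c) p q (2 * r')) := by
    refine ⟨?_, ?_, ?_, hdM, ?_, ?_, ?_⟩
    · ext i j
      fin_cases i <;> fin_cases j <;> rfl
    · show 0 < 2 * a
      linarith
    · show 0 < 2 * a * (2 * c) - b ^ 2
      linarith
    · exact ⟨a, rfl⟩
    · exact ⟨c, rfl⟩
    · exact ⟨r', rfl⟩
  rw [card_Fr, card_Fr, card_adj (by norm_num) adj1 det1 hdM, card_adj (by norm_num) adj2 det2 hdM,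
    one_mul]
  exact h _ hP

theorem sq34 (x : ℤ) : (3 * x ^ 2) % 4 = 0 ∨ (3 * x ^ 2) % 4 = 3 := by
  rcases Int.even_or_odd x with ⟨k, rfl⟩ | ⟨k, rfl⟩
  · left
    have : 3 * (k + k) ^ 2 = 4 * (3 * k ^ 2) := by ring
    omega
  · right
    have : 3 * (2 * k + 1) ^ 2 = 4 * (3 * k ^ 2 + 3 * k) + 3 := by ring
    omega

theorem mod1 (v : V) : S1.nm v % 4 = 0 ∨ S1.nm v % 4 = 3 := by
  have e : S1.nm v = 3 * (v 0 + v 1) ^ 2 + 4 * (v 0 ^ 2 + 2 * v 1 ^ 2 + 5 * v 2 ^ 2 -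
      3 * (v 0 * v 1) - v 0 * v 2 - 2 * (v 1 * v 2)) := by
    rw [nm1, ip1]; ring
  have := sq34 (v 0 + v 1)
  omega

theorem mod2 (v : V) : S2.nm v % 4 = 0 ∨ S2.nm v % 4 = 3 := by
  have e : S2.nm v = 3 * (v 0 + v 1 + v 2) ^ 2 + 4 * (5 * v 1 ^ 2 + 5 * v 2 ^ 2 -
      2 * (v 0 * v 1) - 2 * (v 0 * v 2) - 7 * (v 1 * v 2)) := by
    rw [nm2, ip2]; ring
  have := sq34 (v 0 + v 1 + v 2)
  omega

theorem dat17 (h : S_TORS) : Dat S1 S2 3 1 6 17 where
  d1 := by rw [d1]; norm_num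
  d2 := by rw [d2]; norm_num
  f1 := fin_of_bd bd1
  f2 := fin_of_bd bd2
  p1 := pos_of_bd bd1
  p2 := pos_of_bd bd2
  e1 := even1
  e2 := even2
  m1 := mod1
  m2 := mod2
  T := torsE h

/-- **(RE)**: the parity of the class number, even discriminants -/
theorem t_RE (h : S_TORS) : S_RE := by
  rintro n ⟨⟨m, rfl, hsq, hm⟩, hj⟩
  have hc : Cls 17 m := by
    unfold Cls
    have h2 : (2 : ℤ).gcd (17 : ℕ) = 1 := by decide
    have e : (((4 * m : ℕ) : ℤ)) = 2 ^ 2 * (m : ℤ) := by push_cast; ring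
    rw [e, jacobiSym.mul_left, jacobiSym.sq_one' h2, one_mul] at hj
    rw [hj]
    norm_num
  have hm1 : m ≠ 1 := by
    rintro rfl
    unfold Cls at hc
    norm_num at hc
  obtain ⟨g, h1, h2⟩ := main (dat17 h) (by norm_num) (by norm_num) hsq hm hc
    (mem_vec1 (4 * m : ℕ)) (mem_vec2 (4 * m : ℕ)) hm1
  refine ⟨g, ?_, ?_⟩
  · have h1' : ((2 * (3 * (vec1 (4 * m : ℕ)).card + 1 * (vec2 (4 * m : ℕ)).card) : ℕ) : ℤ) =
        ((6 * 2 ^ (4 * m).primeFactors.card * g : ℕ) : ℤ) := by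
      rw [h1]
    push_cast at h1'
    rw [rr]
    push_cast
    linarith
  · rw [← h2]
    norm_cast

end Pool.Agent.N919.P17
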