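import Pool.Agent.N919.RR.Kh
import Pool.Agent.N919.P17.RE
import Pool.Agent.N972.P17.Defs3

/-!
# (RR) and (RRE) for level 17: the weighted number of vectors and its parity, `17 ∣ n`
-/

set_option autoImplicit false

namespace Pool.Agent.N919.P17

open Finset Matrix Pool.Agent.N877.TF Pool.Agent.N972.P17 Pool.Agent.N919.RE

/-- **(RR)**: the parity of the class number, `17 ∣ n` -/
theorem t_RR (h : S_TORS) : S_RR := by
  rintro n ⟨hsq, h4, h17⟩
  obtain ⟨g, h1, h2⟩ := Pool.Agent.N919.RR.mainO (S := S1) (S' := S2) (l := 17)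
    (by rw [d1]; norm_num) (by rw [d1, d2]) (fin_of_bd bd1) (fin_of_bd bd2) (pos_of_bd bd1)
    (pos_of_bd bd2) (tors2 h) (by norm_num) hsq h4 (by rintro rfl; omega) h17 (mem_vec1 n)
    (mem_vec2 n) even1 even2
  refine ⟨g, ?_, ?_⟩
  · have h1' : ((2 * (3 * (vec1 n).card + 1 * (vec2 n).card) : ℕ) : ℤ) =
        ((6 * 2 ^ (n.primeFactors.card - 1) * g : ℕ) : ℤ) := by
      rw [h1]
    push_cast at h1'
    rw [rr]
    linarith
  · rw [← h2]
    norm_cast

/-- **(RRE)**: the parity of the class number, even discriminants, `17 ∣ n` -/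
theorem t_RRE (h : S_TORS) : S_RRE := by
  rintro n ⟨⟨m, rfl, hsq, hm⟩, h17⟩
  have h17m : 17 ∣ m := by omega
  obtain ⟨g, h1, h2⟩ := Pool.Agent.N919.RR.mainE (dat17 h) (by norm_num) (by norm_num) hsq hm h17m
    (mem_vec1 (4 * m : ℕ)) (mem_vec2 (4 * m : ℕ))
  refine ⟨g, ?_, ?_⟩
  · have h1' : ((2 * (3 * (vec1 (4 * m : ℕ)).card + 1 * (vec2 (4 * m : ℕ)).card) : ℕ) : ℤ) =
        ((6 * 2 ^ ((4 * m).primeFactors.card - 1) * g : ℕ) : ℤ) := by
      rw [h1]
    push_cast at h1'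
    rw [rr]
    push_cast
    linarith
  · rw [← h2]
    norm_cast

end Pool.Agent.N919.P17
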