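import Pool.Agent.N919.P17.Two
import Pool.Agent.N972.P17.Defs

/-!
# The two ternary lattices of level 17: frames and the mass formula
-/

set_option autoImplicit false

namespace Pool.Agent.N919.P17

open Finset Matrix Pool.Agent.N877.TF

/-- the coefficients of the first lattice -/
def S1 : Co := ⟨6, 4, 2, 2, 1, 1⟩

/-- the coefficients of the second lattice -/
def S2 : Co := ⟨12, 2, 2, 1, 1, 1⟩

theorem nm1 (v : V) : S1.nm v = Pool.Agent.N972.P17.ip1 v v := by
  simp only [S1, Co.nm, Pool.Agent.N972.P17.ip1]; ring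

theorem nm2 (v : V) : S2.nm v = Pool.Agent.N972.P17.ip2 v v := by
  simp only [S2, Co.nm, Pool.Agent.N972.P17.ip2]; ring

theorem d1 : S1.d = 34 := by simp only [S1, Co.d]; norm_num

theorem d2 : S2.d = 34 := by simp only [S2, Co.d]; norm_num

theorem B1 (v : V) : S1.B v v = (v 0 + v 2) ^ 2 + (v 1 + v 2) ^ 2 + 2 * (v 0 + v 1) ^ 2 +
    3 * v 0 ^ 2 + v 1 ^ 2 := by
  simp only [S1, Co.B]; ring

theorem B2 (v : V) : S2.B v v = (v 1 + v 2) ^ 2 + (v 0 + v 1) ^ 2 + (v 0 + v 2) ^ 2 +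
    10 * v 0 ^ 2 := by
  simp only [S2, Co.B]; ring

theorem even1 (v : V) : Even (S1.B v v) := by
  simp only [S1, Co.B]
  exact ⟨3 * v 0 ^ 2 + 2 * v 1 ^ 2 + v 2 ^ 2 + 2 * (v 0 * v 1) + v 0 * v 2 + v 1 * v 2, by ring⟩

theorem even2 (v : V) : Even (S2.B v v) := by
  simp only [S2, Co.B]
  exact ⟨6 * v 0 ^ 2 + v 1 ^ 2 + v 2 ^ 2 + v 0 * v 1 + v 0 * v 2 + v 1 * v 2, by ring⟩

theorem bd1 (v : V) (i : Fin 3) : v i ^ 2 ≤ 2 * S1.B v v := by
  rw [B1]
  have a0 := sq_nonneg (v 0)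
  have a1 := sq_nonneg (v 1)
  have a2 := sq_nonneg (v 0 + v 2)
  have a3 := sq_nonneg (v 1 + v 2)
  have a4 := sq_nonneg (v 0 + v 1)
  have a5 := sq_nonneg (2 * v 0 + v 2)
  fin_cases i
  · show v 0 ^ 2 ≤ _
    linarith
  · show v 1 ^ 2 ≤ _
    linarith
  · show v 2 ^ 2 ≤ _
    nlinarith

theorem bd2 (v : V) (i : Fin 3) : v i ^ 2 ≤ 2 * S2.B v v := by
  rw [B2]
  have a0 := sq_nonneg (v 0)
  have a2 := sq_nonneg (v 1 + v 2)
  have a3 := sq_nonneg (v 0 + v 1)
  have a4 := sq_nonneg (v 0 + v 2)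
  have a5 := sq_nonneg (2 * v 0 + v 1)
  have a6 := sq_nonneg (2 * v 0 + v 2)
  fin_cases i
  · show v 0 ^ 2 ≤ _
    linarith
  · show v 1 ^ 2 ≤ _
    nlinarith
  · show v 2 ^ 2 ≤ _
    nlinarith

theorem pos_of_bd {S : Co} (h : ∀ (v : V) (i : Fin 3), v i ^ 2 ≤ 2 * S.B v v) : S.Pos := by
  intro v hv
  by_contra hc
  push Not at hc
  apply hv
  funext i
  have h1 := h v i
  have h2 := sq_nonneg (v i)
  exact pow_eq_zero_iff (two_ne_zero) |>.1 (by linarith)

theorem fin_of_bd {S : Co} (h : ∀ (v : V) (i : Fin 3), v i ^ 2 ≤ 2 * S.B v v) : FinFr S := by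
  have hf : ∀ m : ℤ, Finite {v : V // S.B v v = m} := by
    intro m
    refine Set.Finite.subset (Set.finite_Icc (fun _ => -(2 * m) : V) (fun _ => 2 * m)) ?_
    intro v hv
    have hv' : S.B v v = m := hv
    rw [Set.mem_Icc, Pi.le_def, Pi.le_def]
    constructor
    · intro i
      have h1 := h v i
      rw [hv'] at h1
      nlinarith [sq_nonneg (v i + 1), sq_nonneg (v i)]
    · intro i
      have h1 := h v i
      rw [hv'] at h1
      nlinarith [sq_nonneg (v i - 1), sq_nonneg (v i)]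
  intro m1 m2 m3 p q r
  haveI := hf m1
  haveI := hf m3
  haveI := hf r
  refine Finite.of_injective (fun t : S.Fr m1 m2 m3 p q r =>
    ((⟨t.1.1, t.2.2.1⟩, ⟨t.1.2.1, t.2.2.2.2.1⟩, ⟨t.1.2.2, t.2.2.2.2.2.2.2⟩) :
      {v : V // S.B v v = m1} × {v : V // S.B v v = m3} × {v : V // S.B v v = r})) ?_
  rintro ⟨⟨x, y, z⟩, hx⟩ ⟨⟨x', y', z'⟩, hx'⟩ hh
  simp only [Prod.mk.injEq, Subtype.mk.injEq] at hh
  obtain ⟨rfl, rfl, rfl⟩ := hh
  rfl

/-- the Gram matrix -/
def mat (S : Co) : Matrix (Fin 3) (Fin 3) ℤ :=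
  !![S.s00, S.s01, S.s02; S.s01, S.s11, S.s12; S.s02, S.s12, S.s22]

/-- the matrix with given columns -/
def cols (v w z : V) : Matrix (Fin 3) (Fin 3) ℤ := (Matrix.of ![v, w, z])ᵀ

theorem cols_eq (A : Matrix (Fin 3) (Fin 3) ℤ) : A = cols (fun i => A i 0) (fun i => A i 1)
    (fun i => A i 2) := by
  ext i j
  fin_cases j <;> rfl

theorem det_cols (v w z : V) : (cols v w z).det = dt (crs v w) z := by
  rw [cols, det_transpose, det_fin_three, dt, crs0, crs1, crs2]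
  show v 0 * w 1 * z 2 - v 0 * w 2 * z 1 - v 1 * w 0 * z 2 + v 1 * w 2 * z 0 + v 2 * w 0 * z 1 -
    v 2 * w 1 * z 0 = _
  ring

theorem quad (S : Co) (A : Matrix (Fin 3) (Fin 3) ℤ) (i j : Fin 3) :
    (Aᵀ * mat S * A) i j = S.B (fun k => A k i) (fun k => A k j) := by
  rw [mul_apply, Fin.sum_univ_three]
  simp only [mul_apply, Fin.sum_univ_three, transpose_apply, Co.B, mat]
  simp
  ring

/-- the symmetric matrix with given entries -/
def sm (a b c p q r : ℤ) : Matrix (Fin 3) (Fin 3) ℤ := !![a, b, p; b, c, q; p, q, r]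

theorem gram_iff (S : Co) (v w z : V) (a b c p q r : ℤ) :
    (cols v w z)ᵀ * mat S * cols v w z = sm a b c p q r ↔ S.B v v = a ∧ S.B v w = b ∧
      S.B w w = c ∧ S.B v z = p ∧ S.B w z = q ∧ S.B z z = r := by
  constructor
  · intro h
    have hh : ∀ i j, ((cols v w z)ᵀ * mat S * cols v w z) i j = sm a b c p q r i j :=
      fun i j => by rw [h]
    exact ⟨(quad S _ 0 0).symm.trans (hh 0 0), (quad S _ 0 1).symm.trans (hh 0 1),
      (quad S _ 1 1).symm.trans (hh 1 1), (quad S _ 0 2).symm.trans (hh 0 2),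
      (quad S _ 1 2).symm.trans (hh 1 2), (quad S _ 2 2).symm.trans (hh 2 2)⟩
  · rintro ⟨h1, h2, h3, h4, h5, h6⟩
    ext i j
    rw [quad]
    fin_cases i <;> fin_cases j
    · exact h1
    · exact h2
    · exact h4
    · exact (S.B_comm _ _).trans h2
    · exact h3
    · exact h5
    · exact (S.B_comm _ _).trans h4
    · exact (S.B_comm _ _).trans h5
    · exact h6

/-- frames are matrices -/
theorem card_Fr (S : Co) (a b c p q r : ℤ) : Nat.card (S.Fr a b c p q r) =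
    Nat.card {A : Matrix (Fin 3) (Fin 3) ℤ // Aᵀ * mat S * A = sm a b c p q r ∧ A.det = 1} := by
  refine Nat.card_congr ⟨fun t => ⟨cols t.1.1 t.1.2.1 t.1.2.2, (gram_iff S _ _ _ _ _ _ _ _ _).2
    t.2.2, by rw [det_cols]; exact t.2.1⟩, fun A => ⟨(fun i => A.1 i 0, fun i => A.1 i 1,
    fun i => A.1 i 2), ?_, ?_⟩, ?_, ?_⟩
  · have := A.2.2
    rw [cols_eq A.1, det_cols] at this
    exact this
  · exact (gram_iff S _ _ _ _ _ _ _ _ _).1 (by rw [← cols_eq]; exact A.2.1)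
  · intro t
    rfl
  · intro A
    apply Subtype.ext
    exact (cols_eq A.1).symm

theorem adj_adj (A : Matrix (Fin 3) (Fin 3) ℤ) : A.adjugate.adjugate = A.det • A := by
  have := Matrix.adjugate_adjugate A (by simp)
  simpa using this

/-- frames of the adjugate lattice -/
theorem card_adj {F G M : Matrix (Fin 3) (Fin 3) ℤ} {d : ℤ} (hd : d ≠ 0) (hG : F.adjugate = G)
    (hF : F.det = d) (hM : M.det = d) :
    Nat.card {A : Matrix (Fin 3) (Fin 3) ℤ // Aᵀ * F * A = M ∧ A.det = 1} =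
      Nat.card {A : Matrix (Fin 3) (Fin 3) ℤ // Aᵀ * G * A = M.adjugate ∧ A.det = 1} := by
  have hdet : ∀ A : Matrix (Fin 3) (Fin 3) ℤ, A.det = 1 → A.adjugateᵀ.det = 1 := by
    intro A hA
    rw [det_transpose, det_adjugate, hA, one_pow]
  have hinv : ∀ A : Matrix (Fin 3) (Fin 3) ℤ, A.det = 1 → A.adjugateᵀ.adjugateᵀ = A := by
    intro A hA
    rw [← adjugate_transpose, transpose_transpose, adj_adj, hA, one_smul]
  refine Nat.card_congr ⟨fun A => ⟨A.1.adjugateᵀ, ?_, hdet _ A.2.2⟩,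
    fun A => ⟨A.1.adjugateᵀ, ?_, hdet _ A.2.2⟩, fun A => Subtype.ext (hinv _ A.2.2),
    fun A => Subtype.ext (hinv _ A.2.2)⟩
  · obtain ⟨A, h1, h2⟩ := A
    show A.adjugateᵀᵀ * G * A.adjugateᵀ = M.adjugate
    rw [← h1, adjugate_mul_distrib, adjugate_mul_distrib, hG, transpose_transpose,
      ← adjugate_transpose, Matrix.mul_assoc]
  · obtain ⟨A, h1, h2⟩ := A
    show A.adjugateᵀᵀ * F * A.adjugateᵀ = M
    have h1 := congrArg adjugate h1
    rw [adjugate_mul_distrib, adjugate_mul_distrib, adj_adj, hM, ← hG, adj_adj, hF,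
      ← adjugate_transpose, Matrix.smul_mul, Matrix.mul_smul] at h1
    rw [transpose_transpose]
    have h2 := smul_right_injective (Matrix (Fin 3) (Fin 3) ℤ) hd h1
    rw [← h2, Matrix.mul_assoc]

theorem adj1 : (mat S1).adjugate = Pool.Agent.N972.P17.G1 := by
  decide +kernel

theorem adj2 : (mat S2).adjugate = Pool.Agent.N972.P17.G2 := by
  decide +kernel

theorem det1 : (mat S1).det = 34 := by decide +kernel

theorem det2 : (mat S2).det = 34 := by decide +kernel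

/-- the mass formula in terms of frames -/
theorem tors2 (h : Pool.Agent.N972.P17.S_TORS) : Tors2 S1 S2 3 1 6 := by
  intro a b c p q r ha hD hodd hdet
  rw [d1] at hdet
  have hr : (2 : ℤ) ∣ r := by
    have h1 : Even ((4 * a * c - b ^ 2) * r) := by
      rw [hdet]; exact ⟨17 + (c * p ^ 2 - b * p * q + a * q ^ 2), by ring⟩
    rcases Int.even_mul.1 h1 with h | h
    · exact absurd h (Int.not_even_iff_odd.2 hodd)
    · exact h.two_dvd
  have hdM : (sm (2 * a) b (2 * c) p q r).det = 34 := by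
    rw [sm, det_fin_three]
    simp
    linear_combination hdet
  have hP : Pool.Agent.N972.P17.PosF (sm (2 * a) b (2 * c) p q r) := by
    refine ⟨?_, ?_, ?_, hdM, ?_, ?_, ?_⟩
    · ext i j
      fin_cases i <;> fin_cases j <;> rfl
    · show 0 < 2 * a
      linarith
    · show 0 < 2 * a * (2 * c) - b ^ 2
      linarith
    · exact ⟨a, rfl⟩
    · exact ⟨c, rfl⟩
    · exact hr
  rw [card_Fr, card_Fr, card_adj (by norm_num) adj1 det1 hdM, card_adj (by norm_num) adj2 det2 hdM,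
    one_mul]
  exact h _ hP

end Pool.Agent.N919.P17
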