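import Pool.Agent.N877.TF.Fin

/-!
# Counting vectors of two lattices with weights

As `Pool.Agent.N877.TF`, for a genus with two classes: the number of frames is
`3 #Fr₁ + #Fr₂ = τ`.
-/

set_option autoImplicit false

namespace Pool.Agent.N919.P17

open Finset Pool.Agent.N877.TF

/-- pairs with a given Gram matrix as a sum over frames -/
theorem PP_sum (S : Co) {a b c : ℤ} {n : ℕ} (hfin : ∀ p q r, Finite (S.Fr (2 * a) b (2 * c) p q r))
    (hn : 4 * a * c - b ^ 2 = n) (ha : 0 < a) (hsq : Squarefree n) (hodd : Odd n)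
    (hcop : IsCoprime a (n : ℤ)) {k1 k2 : ℤ} (hk : 2 * a * k2 - b * k1 = 1) :
    Nat.card (S.PP (2 * a) b (2 * c)) = ∑ u ∈ Iu n (2 * a * S.d),
      Nat.card (S.Fr (2 * a) b (2 * c) (k1 * (u : ℤ)) (k2 * (u : ℤ))
        ((S.d + 2 * (u : ℤ) ^ 2 * (c * k1 ^ 2 - b * k1 * k2 + a * k2 ^ 2)) / n)) := by
  have hn0 : 0 < n := Nat.pos_of_ne_zero hsq.ne_zero
  have hnZ : (0 : ℤ) < n := by exact_mod_cast hn0
  have hoddZ : Odd (4 * a * c - b ^ 2) := by rw [hn]; exact_mod_cast hodd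
  have h2n : IsCoprime (2 : ℤ) (n : ℤ) := by
    obtain ⟨k, hk⟩ := hodd
    refine ⟨-k, 1, ?_⟩
    rw [hk]; push_cast; ring
  have h2an : IsCoprime (2 * a) (n : ℤ) := h2n.mul_left hcop
  set κ : ℤ := c * k1 ^ 2 - b * k1 * k2 + a * k2 ^ 2 with hκ
  have hκ4 : 4 * a * κ = 1 + n * k1 ^ 2 := by
    have e1 : 4 * a * κ = (2 * a * k2 - b * k1) ^ 2 + (4 * a * c - b ^ 2) * k1 ^ 2 := by
      rw [hκ]; ring
    rw [e1, hk, hn]; ring
  have hdiv : ∀ u : ℤ, (n : ℤ) ∣ S.d + 2 * u ^ 2 * κ ↔ (n : ℤ) ∣ u ^ 2 + 2 * a * S.d := by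
    intro u
    have e1 : 2 * a * (S.d + 2 * u ^ 2 * κ) = (u ^ 2 + 2 * a * S.d) + n * (k1 ^ 2 * u ^ 2) := by
      linear_combination u ^ 2 * hκ4
    constructor
    · intro h
      have h2 : (n : ℤ) ∣ 2 * a * (S.d + 2 * u ^ 2 * κ) := Dvd.dvd.mul_left h _
      rw [e1] at h2
      exact (dvd_add_left (Dvd.intro _ rfl)).1 h2
    · intro h
      have h2 : (n : ℤ) ∣ 2 * a * (S.d + 2 * u ^ 2 * κ) := by
        rw [e1]; exact dvd_add h (Dvd.intro _ rfl)
      exact h2an.symm.dvd_of_dvd_mul_left h2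
  -- the frames
  let r : ℤ → ℤ := fun u => (S.d + 2 * u ^ 2 * κ) / n
  have hr : ∀ u : ℤ, (n : ℤ) ∣ u ^ 2 + 2 * a * S.d → (n : ℤ) * r u = S.d + 2 * u ^ 2 * κ :=
    fun u hu => Int.mul_ediv_cancel' ((hdiv u).2 hu)
  haveI : ∀ u : {u : ℕ // u ∈ Iu n (2 * a * S.d)},
      Finite (S.Fr (2 * a) b (2 * c) (k1 * (u.1 : ℤ)) (k2 * (u.1 : ℤ)) (r (u.1 : ℤ))) := fun u =>
    hfin _ _ _
  have hsig : Nat.card (Σ u : {u : ℕ // u ∈ Iu n (2 * a * S.d)},
      S.Fr (2 * a) b (2 * c) (k1 * (u.1 : ℤ)) (k2 * (u.1 : ℤ)) (r (u.1 : ℤ))) =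
      ∑ u ∈ Iu n (2 * a * S.d),
        Nat.card (S.Fr (2 * a) b (2 * c) (k1 * (u : ℤ)) (k2 * (u : ℤ)) (r (u : ℤ))) := by
    rw [Nat.card_sigma]
    exact Finset.sum_coe_sort (Iu n (2 * a * S.d)) (fun u : ℕ =>
      Nat.card (S.Fr (2 * a) b (2 * c) (k1 * (u : ℤ)) (k2 * (u : ℤ)) (r (u : ℤ))))
  refine Eq.trans ?_ hsig
  symm
  refine Nat.card_eq_of_bijective (fun t => (⟨(t.2.1.1, t.2.1.2.1), t.2.2.2.1, t.2.2.2.2.1,
    t.2.2.2.2.2.1⟩ : S.PP (2 * a) b (2 * c))) ⟨?_, ?_⟩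
  · rintro ⟨⟨u, hu⟩, ⟨⟨x, y, z⟩, h1, h2, h3, h4, h5, h6, h7⟩⟩
      ⟨⟨u', hu'⟩, ⟨⟨x', y', z'⟩, g1, g2, g3, g4, g5, g6, g7⟩⟩ heq
    have e0 := congrArg Subtype.val heq
    simp only [Prod.mk.injEq] at e0
    obtain ⟨rfl, rfl⟩ := e0
    simp only at h1 h2 h3 h4 h5 h6 h7 g1 g2 g3 g4 g5 g6 g7
    -- the difference of the third vectors
    obtain ⟨k, l, hkl⟩ := span_of (x := x) (y := y) (z := z) (u := z' - z) h1 (by
      have : dt (crs x y) (z' - z) = dt (crs x y) z' - dt (crs x y) z := by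
        simp only [dt, Pi.sub_apply]; ring
      rw [this, h1, g1]; ring)
    have hz' : z' = z + k • x + l • y := by
      rw [add_assoc, ← hkl]; abel
    rw [hz', B_add, h2, h3, h5] at g5
    rw [hz', B_add, S.B_comm y x, h3, h4, h6] at g6
    have hu1 : (u' : ℤ) - u = n * l := by
      rw [← hn]
      linear_combination -(2 * a) * g6 + b * g5 + ((u : ℤ) - u') * hk
    have hub : (u : ℤ) < n := by exact_mod_cast Finset.mem_range.1 (Finset.mem_filter.1 hu).1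
    have hub' : (u' : ℤ) < n := by exact_mod_cast Finset.mem_range.1 (Finset.mem_filter.1 hu').1
    have hl : l = 0 := by
      by_contra hne
      rcases lt_or_gt_of_ne hne with h | h
      · have : l ≤ -1 := by omega
        nlinarith
      · have : 1 ≤ l := by omega
        nlinarith
    subst hl
    have huu : u = u' := by
      have : (u' : ℤ) = u := by linarith
      exact_mod_cast this.symm
    subst huu
    have hk0 : k = 0 := by
      have : 2 * a * k = 0 := by linarith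
      rcases mul_eq_zero.1 this with h | h
      · exfalso; linarith
      · exact h
    subst hk0
    have : z' = z := by rw [hz']; simp
    subst this
    rfl
  · rintro ⟨⟨x, y⟩, h2, h3, h4⟩
    simp only at h2 h3 h4
    have hv : S.nm (crs x y) = n := by
      rw [S.lagrange, h2, h3, h4, ← hn]; ring
    obtain ⟨z0, hz0⟩ := prim_of_sqfree S hsq hv
    obtain ⟨u0, hu0⟩ : ∃ u0, u0 = 2 * a * S.B y z0 - b * S.B x z0 := ⟨_, rfl⟩
    obtain ⟨l, hl⟩ : ∃ l, l = u0 / n := ⟨_, rfl⟩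
    have hmod := Int.emod_add_mul_ediv u0 n
    have hm0 := Int.emod_nonneg u0 hnZ.ne'
    have hm1 := Int.emod_lt_of_pos u0 hnZ
    obtain ⟨u, hu⟩ : ∃ u : ℕ, (u : ℤ) = u0 % n := ⟨_, Int.toNat_of_nonneg hm0⟩
    rw [← hu] at hmod hm1
    rw [← hl] at hmod
    -- first adjustment
    obtain ⟨p1, hp1⟩ : ∃ p1, p1 = S.B x z0 - l * b := ⟨_, rfl⟩
    obtain ⟨q1, hq1⟩ : ∃ q1, q1 = S.B y z0 - l * (2 * c) := ⟨_, rfl⟩
    have hpq : 2 * a * q1 - b * p1 = u := by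
      rw [hp1, hq1]
      linear_combination -hu0 - hmod - l * hn
    have hpq' : 2 * a * (q1 - k2 * u) = b * (p1 - k1 * u) := by
      linear_combination hpq - (u : ℤ) * hk
    have hab : IsCoprime (2 * a) b := ⟨k2, -k1, by linear_combination hk⟩
    obtain ⟨m, hm⟩ : 2 * a ∣ p1 - k1 * u := hab.dvd_of_dvd_mul_left (Dvd.intro _ hpq')
    have hqm : q1 - k2 * u = b * m := by
      have h2a : (2 * a) ≠ 0 := by linarith
      apply mul_left_cancel₀ h2a
      rw [hpq', hm]; ring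
    set z : V := z0 + (-l) • y + (-m) • x with hz
    have hB1 : S.B x z = k1 * u := by
      rw [hz, B_add, h2, h3]
      linear_combination hm - hp1
    have hB2 : S.B y z = k2 * u := by
      rw [hz, B_add, S.B_comm y x, h3, h4]
      linear_combination hqm - hq1
    have hdz : dt (crs x y) z = 1 := by
      rw [hz, dt_add, dt_crs_left, dt_crs_right, hz0]; ring
    have hg := S.gram_det x y z
    rw [h2, h3, h4, hB1, hB2, hdz] at hg
    have hg' : (n : ℤ) * S.B z z = S.d + 2 * (u : ℤ) ^ 2 * κ := by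
      rw [← hn, hκ]
      linear_combination hg
    have hmem : u ∈ Iu n (2 * a * S.d) := by
      rw [Iu, Finset.mem_filter, Finset.mem_range]
      exact ⟨by exact_mod_cast hm1, (hdiv u).1 ⟨_, hg'.symm⟩⟩
    refine ⟨⟨⟨u, hmem⟩, ⟨(x, y, z), hdz, h2, h3, h4, hB1, hB2, ?_⟩⟩, rfl⟩
    have h5 := hr u (Finset.mem_filter.1 hmem).2
    have h6 : (n : ℤ) * S.B z z = n * r u := by rw [h5, hg']
    exact mul_left_cancel₀ hnZ.ne' h6

/-- the weighted number of frames of two lattices -/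
def Tors2 (S S' : Co) (w w' τ : ℕ) : Prop := ∀ a b c p q r : ℤ, 0 < a → 0 < 4 * a * c - b ^ 2 →
  Odd (4 * a * c - b ^ 2) →
  (4 * a * c - b ^ 2) * r = S.d + 2 * (c * p ^ 2 - b * p * q + a * q ^ 2) →
  w * Nat.card (S.Fr (2 * a) b (2 * c) p q r) + w' * Nat.card (S'.Fr (2 * a) b (2 * c) p q r) = τ

/-- the frames are finitely many -/
def FinFr (S : Co) : Prop := ∀ m1 m2 m3 p q r : ℤ, Finite (S.Fr m1 m2 m3 p q r)

theorem card_PP2 {S S' : Co} (hd : S'.d = S.d) (hf : FinFr S) (hf' : FinFr S') {w w' τ : ℕ}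
    (hT : Tors2 S S' w w' τ) {a b c : ℤ} {n : ℕ}
    (hn : 4 * a * c - b ^ 2 = n) (ha : 0 < a) (hsq : Squarefree n) (hodd : Odd n)
    (hcop : IsCoprime a (n : ℤ)) :
    w * Nat.card (S.PP (2 * a) b (2 * c)) + w' * Nat.card (S'.PP (2 * a) b (2 * c)) =
      τ * (Iu n (2 * a * S.d)).card := by
  have hn0 : 0 < n := Nat.pos_of_ne_zero hsq.ne_zero
  have hnZ : (0 : ℤ) < n := by exact_mod_cast hn0
  have h2n : IsCoprime (2 : ℤ) (n : ℤ) := by
    obtain ⟨k, hk⟩ := hodd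
    refine ⟨-k, 1, ?_⟩
    rw [hk]; push_cast; ring
  have h2an : IsCoprime (2 * a) (n : ℤ) := h2n.mul_left hcop
  have hab : IsCoprime (2 * a) b := by
    have h1 : IsCoprime (2 * a) (b ^ 2) := by
      obtain ⟨u, v, huv⟩ := h2an
      refine ⟨u + 2 * v * c, -v, ?_⟩
      rw [← hn] at huv
      linear_combination huv
    exact (IsCoprime.pow_right_iff (by norm_num)).1 h1
  obtain ⟨k2, k1', hk'⟩ := hab
  obtain ⟨k1, hk1⟩ : ∃ k1, k1 = -k1' := ⟨_, rfl⟩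
  have hk : 2 * a * k2 - b * k1 = 1 := by rw [hk1]; linear_combination hk'
  rw [PP_sum S (hf _ _ _) hn ha hsq hodd hcop hk, PP_sum S' (hf' _ _ _) hn ha hsq hodd hcop hk, hd,
    Finset.mul_sum, Finset.mul_sum, ← Finset.sum_add_distrib]
  rw [Finset.sum_congr rfl (g := fun _ => τ), Finset.sum_const, smul_eq_mul, mul_comm]
  intro u hu
  apply hT a b c _ _ _ ha (by rw [hn]; exact hnZ) (by rw [hn]; exact_mod_cast hodd)
  set κ : ℤ := c * k1 ^ 2 - b * k1 * k2 + a * k2 ^ 2 with hκ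
  have hκ4 : 4 * a * κ = 1 + n * k1 ^ 2 := by
    have e1 : 4 * a * κ = (2 * a * k2 - b * k1) ^ 2 + (4 * a * c - b ^ 2) * k1 ^ 2 := by
      rw [hκ]; ring
    rw [e1, hk, hn]; ring
  have hdv : (n : ℤ) ∣ S.d + 2 * (u : ℤ) ^ 2 * κ := by
    have e1 : 2 * a * (S.d + 2 * (u : ℤ) ^ 2 * κ) =
        ((u : ℤ) ^ 2 + 2 * a * S.d) + n * (k1 ^ 2 * (u : ℤ) ^ 2) := by
      linear_combination (u : ℤ) ^ 2 * hκ4
    have h2 : (n : ℤ) ∣ 2 * a * (S.d + 2 * (u : ℤ) ^ 2 * κ) := by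
      rw [e1]; exact dvd_add (Finset.mem_filter.1 hu).2 (Dvd.intro _ rfl)
    exact h2an.symm.dvd_of_dvd_mul_left h2
  rw [hn, Int.mul_ediv_cancel' hdv, hκ]
  ring

theorem card_PP_red2 {S S' : Co} (hd' : S'.d = S.d) (hf : FinFr S) (hf' : FinFr S') {w w' τ : ℕ}
    (hT : Tors2 S S' w w' τ) (hd : 0 < S.d) {n : ℕ}
    (hsq : Squarefree n) (hodd : Odd n) (hcop : IsCoprime S.d (n : ℤ)) {g : ℤ × ℤ × ℤ}
    (hg : g ∈ Rd n) : w * Nat.card (S.PP (2 * g.1) g.2.1 (2 * g.2.2)) +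
      w' * Nat.card (S'.PP (2 * g.1) g.2.1 (2 * g.2.2)) =
      if Gc n S.d g then τ * 2 ^ n.primeFactors.card else 0 := by
  obtain ⟨a, b, c⟩ := g
  have hR := mem_Rd.1 hg
  simp only at hR ⊢
  obtain ⟨hn, ha, -⟩ := hR
  have hn0 : 0 < n := Nat.pos_of_ne_zero hsq.ne_zero
  obtain ⟨h1, h2⟩ := gcd_facts hsq a
  set e : ℕ := Int.gcd a n with he
  set f : ℕ := n / e with hf0
  -- the base change
  obtain ⟨s, q', hsq'⟩ : IsCoprime (e : ℤ) (f : ℤ) := Nat.isCoprime_iff_coprime.2 h2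
  have hdet : (e : ℤ) * s - (-q') * f = 1 := by linear_combination hsq'
  have hv : vl n (a, b, c) = a * (e : ℤ) ^ 2 + b * ((e : ℤ) * f) + c * (f : ℤ) ^ 2 := rfl
  rw [card_PP_change S hdet, card_PP_change S' hdet]
  have hnew : 4 * (a * (e : ℤ) ^ 2 + b * ((e : ℤ) * f) + c * (f : ℤ) ^ 2) *
      (a * (-q') ^ 2 + b * ((-q') * s) + c * s ^ 2) -
      (2 * a * ((e : ℤ) * (-q')) + b * ((e : ℤ) * s + (-q') * f) + 2 * c * ((f : ℤ) * s)) ^ 2 =
      n := by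
    have : 4 * (a * (e : ℤ) ^ 2 + b * ((e : ℤ) * f) + c * (f : ℤ) ^ 2) *
      (a * (-q') ^ 2 + b * ((-q') * s) + c * s ^ 2) -
      (2 * a * ((e : ℤ) * (-q')) + b * ((e : ℤ) * s + (-q') * f) + 2 * c * ((f : ℤ) * s)) ^ 2 =
      (4 * a * c - b ^ 2) * ((e : ℤ) * s - (-q') * f) ^ 2 := by ring
    rw [this, hdet, hn]; ring
  have hpos : 0 < a * (e : ℤ) ^ 2 + b * ((e : ℤ) * f) + c * (f : ℤ) ^ 2 := by
    apply pos_val ha (by rw [hn]; exact_mod_cast hn0)
    left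
    intro h0
    rw [show e = 0 by exact_mod_cast h0, zero_mul] at h1
    omega
  have hcv := vl_coprime hsq (a := a) (b := b) (c := c) hn
  rw [hv] at hcv
  have hcard := card_PP2 hd' hf hf' hT hnew hpos hsq hodd hcv
  rw [hcard]
  have hw : 0 < 2 * (a * (e : ℤ) ^ 2 + b * ((e : ℤ) * f) + c * (f : ℤ) ^ 2) * S.d := by positivity
  have h5 := card_Iu hsq hodd hw
  -- the symbols do not vanish
  have hJ : ∀ p ∈ n.primeFactors, jacobiSym (-(2 * S.d * vl n (a, b, c))) p = 1 ∨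
      jacobiSym (-(2 * S.d * vl n (a, b, c))) p = -1 := by
    intro p hp
    have hpp := Nat.prime_of_mem_primeFactors hp
    have hpn := Nat.dvd_of_mem_primeFactors hp
    have hc2 : IsCoprime (2 : ℤ) (n : ℤ) := by
      obtain ⟨k, hk⟩ := hodd
      refine ⟨-k, 1, ?_⟩
      rw [hk]; push_cast; ring
    have hall : IsCoprime (-(2 * S.d * vl n (a, b, c))) (p : ℤ) := by
      have h6 : IsCoprime (2 * S.d * vl n (a, b, c)) (n : ℤ) :=
        (hc2.mul_left hcop).mul_left (vl_coprime hsq hn)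
      exact (h6.of_isCoprime_of_dvd_right (by exact_mod_cast hpn)).neg_left
    haveI : NeZero p := ⟨hpp.ne_zero⟩
    have h7 : jacobiSym (-(2 * S.d * vl n (a, b, c))) p ≠ 0 := by
      rw [Ne, jacobiSym.eq_zero_iff_not_coprime]
      exact fun h => h (Int.isCoprime_iff_gcd_eq_one.1 hall)
    rcases jacobiSym.trichotomy (-(2 * S.d * vl n (a, b, c))) p with h | h | h
    · exact absurd h h7
    · exact Or.inl h
    · exact Or.inr h
  have harg : -(2 * (a * (e : ℤ) ^ 2 + b * ((e : ℤ) * f) + c * (f : ℤ) ^ 2) * S.d) =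
      -(2 * S.d * vl n (a, b, c)) := by rw [hv]; ring
  rw [harg] at h5
  split_ifs with hG
  · congr 1
    have : ((Iu n (2 * (a * (e : ℤ) ^ 2 + b * ((e : ℤ) * f) + c * (f : ℤ) ^ 2) * S.d)).card : ℤ) =
        ((2 ^ n.primeFactors.card : ℕ) : ℤ) := by
      rw [h5, Finset.prod_congr rfl (fun p hp => by rw [hG p hp])]
      rw [Finset.prod_const]; push_cast; norm_num
    exact_mod_cast this
  · have : ((Iu n (2 * (a * (e : ℤ) ^ 2 + b * ((e : ℤ) * f) + c * (f : ℤ) ^ 2) * S.d)).card : ℤ) =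
        0 := by
      rw [h5, Finset.prod_eq_zero_iff]
      unfold Gc at hG
      push Not at hG
      obtain ⟨p, hp, hne⟩ := hG
      refine ⟨p, hp, ?_⟩
      rcases hJ p hp with h | h
      · exact absurd h hne
      · rw [h]; norm_num
    have h8 : (Iu n (2 * (a * (e : ℤ) ^ 2 + b * ((e : ℤ) * f) + c * (f : ℤ) ^ 2) * S.d)).card =
        0 := by exact_mod_cast this
    rw [h8, mul_zero]

/-- the weighted number of vectors -/
theorem card_vec2 {S S' : Co} (hd' : S'.d = S.d) (hf : FinFr S) (hf' : FinFr S') {w w' τ : ℕ}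
    (hpos : S.Pos) (hpos' : S'.Pos) (hT : Tors2 S S' w w' τ) (hd : 0 < S.d) {n : ℕ}
    (hsq : Squarefree n) (hodd : Odd n) (hn3 : n ≠ 3) (hcop : IsCoprime S.d (n : ℤ))
    {VV VV' : Finset V} (hVV : ∀ v, v ∈ VV ↔ S.nm v = n) (hVV' : ∀ v, v ∈ VV' ↔ S'.nm v = n)
    (hev : ∀ v, S.nm v = n → ∀ u : V, dt v u = 0 → Even (S.B u u))
    (hev' : ∀ v, S'.nm v = n → ∀ u : V, dt v u = 0 → Even (S'.B u u)) :
    2 * (w * VV.card + w' * VV'.card) =
      τ * 2 ^ n.primeFactors.card * ((Rd n).filter fun g => Gc n S.d g).card := by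
  have h1 := sum_PP S hpos hsq hodd hn3 hVV hev
  have h2 := sum_PP S' hpos' hsq hodd hn3 hVV' hev'
  have h3 : 2 * (w * VV.card + w' * VV'.card) = w * (2 * VV.card) + w' * (2 * VV'.card) := by ring
  rw [h3, h1, h2, Finset.mul_sum, Finset.mul_sum, ← Finset.sum_add_distrib,
    Finset.sum_congr rfl (fun g hg => card_PP_red2 hd' hf hf' hT hd hsq hodd hcop hg),
    ← Finset.sum_filter, Finset.sum_const, smul_eq_mul, mul_comm]

end Pool.Agent.N919.P17
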